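import Mathlib
import Pool.Agent.X238.DW.Stm2

set_option autoImplicit false

universe v

namespace Pool.Agent.X292.DW

open Pool.Agent.X238.DW

theorem exists_flow {E : Type v} [NormedAddCommGroup E] [NormedSpace ℝ E] [CompleteSpace E]
    (M : E →L[ℝ] E) (e : E) : ∃ U : ℝ → E, U 0 = e ∧ ∀ s, HasDerivAt U (M (U s)) s := by
  refine ⟨fun u => NormedSpace.exp (u • M) e, ?_, fun s => ?_⟩
  · change NormedSpace.exp ((0 : ℝ) • M) e = e
    rw [zero_smul, NormedSpace.exp_zero]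
    rfl
  · have h1 := hasDerivAt_exp_smul_const' (𝕂 := ℝ) M s
    exact (ContinuousLinearMap.apply ℝ E e).hasFDerivAt.comp_hasDerivAt s h1

theorem t_KER2 : S_KER2.{v} := by
  intro V _ _ _ c A x
  obtain ⟨U, h0, h⟩ := exists_flow ((ContinuousLinearMap.snd ℝ V V).prod
    (-(c • ContinuousLinearMap.snd ℝ V V) - A.comp (ContinuousLinearMap.fst ℝ V V)))
    ((0 : V), x)
  refine ⟨fun s => (U s).1, fun s => (U s).2, ?_, ?_, ?_, ?_⟩
  · intro s
    exact (ContinuousLinearMap.fst ℝ V V).hasFDerivAt.comp_hasDerivAt s (h s)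
  · intro s
    exact (ContinuousLinearMap.snd ℝ V V).hasFDerivAt.comp_hasDerivAt s (h s)
  · rw [h0]
  · rw [h0]

end Pool.Agent.X292.DW
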